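import Mathlib

/-!
# Deficient multipliers and almost perfect numbers: basic facts
-/

namespace Pool.Agent.U796.AP

open Finset

/-- sum of the divisors -/
abbrev sg (m : ℕ) : ℕ := ArithmeticFunction.sigma 1 m

/-- the set of the positive deficient `k` such that `k * n` is non-deficient -/
def W (n : ℕ) : Set ℕ := {k | 1 ≤ k ∧ sg k < 2 * k ∧ 2 * (k * n) ≤ sg (k * n)}

/-- the least deficient `k` such that `k * n` is non-deficient -/
noncomputable def a (n : ℕ) : ℕ := sInf (W n)

theorem sg_coprime {x y : ℕ} (h : Nat.Coprime x y) : sg (x * y) = sg x * sg y :=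
  ArithmeticFunction.isMultiplicative_sigma.map_mul_of_coprime h

theorem sg_eq (n : ℕ) : sg n = ∑ d ∈ n.divisors, d := ArithmeticFunction.sigma_one_apply n

theorem sg_mul_le (k n : ℕ) : sg (k * n) ≤ sg k * sg n := by
  classical
  rw [sg_eq, sg_eq, sg_eq, Finset.sum_mul_sum, ← Finset.sum_product']
  rcases Nat.eq_zero_or_pos k with hk | hk
  · subst hk; simp
  have hinj : Set.InjOn (fun d : ℕ => (Nat.gcd d k, d / Nat.gcd d k)) ((k * n).divisors : Set ℕ) := by
    intro d _ e _ h
    simp only [Prod.mk.injEq] at h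
    obtain ⟨h1, h2⟩ := h
    have e1 : Nat.gcd d k * (d / Nat.gcd d k) = d := Nat.mul_div_cancel' (Nat.gcd_dvd_left d k)
    have e2 : Nat.gcd e k * (e / Nat.gcd e k) = e := Nat.mul_div_cancel' (Nat.gcd_dvd_left e k)
    rw [← e1, ← e2, h2, h1]
  calc ∑ d ∈ (k * n).divisors, d
      = ∑ x ∈ ((k * n).divisors).image (fun d : ℕ => (Nat.gcd d k, d / Nat.gcd d k)),
          x.1 * x.2 := by
        rw [Finset.sum_image hinj]
        apply Finset.sum_congr rfl
        intro d _
        exact (Nat.mul_div_cancel' (Nat.gcd_dvd_left d k)).symm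
    _ ≤ ∑ x ∈ k.divisors ×ˢ n.divisors, x.1 * x.2 := by
        apply Finset.sum_le_sum_of_subset
        intro x hx
        rw [Finset.mem_image] at hx
        obtain ⟨d, hd, rfl⟩ := hx
        rw [Nat.mem_divisors] at hd
        obtain ⟨hd, hn0⟩ := hd
        rw [Finset.mem_product, Nat.mem_divisors, Nat.mem_divisors]
        refine ⟨⟨Nat.gcd_dvd_right d k, hk.ne'⟩, ?_, (Nat.mul_ne_zero_iff.1 hn0).2⟩
        have hg : 0 < Nat.gcd d k := Nat.gcd_pos_of_pos_right d hk
        have hc : Nat.Coprime (d / Nat.gcd d k) (k / Nat.gcd d k) :=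
          Nat.coprime_div_gcd_div_gcd hg
        apply hc.dvd_of_dvd_mul_left
        have h3 : Nat.gcd d k * (d / Nat.gcd d k) ∣ Nat.gcd d k * (k / Nat.gcd d k * n) := by
          rw [Nat.mul_div_cancel' (Nat.gcd_dvd_left d k), ← mul_assoc,
            Nat.mul_div_cancel' (Nat.gcd_dvd_right d k)]
          exact hd
        exact Nat.dvd_of_mul_dvd_mul_left hg h3

theorem sg_two_pow (j : ℕ) : sg (2 ^ j) + 1 = 2 ^ (j + 1) := by
  have h : sg (2 ^ j) = ∑ i ∈ range (j + 1), 2 ^ i :=
    ArithmeticFunction.sigma_one_apply_prime_pow Nat.prime_two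
  rw [h]
  generalize j + 1 = t
  induction t with
  | zero => simp
  | succ t ih => rw [Finset.sum_range_succ, pow_succ]; omega

theorem two_pow_cop {n : ℕ} (hn : Odd n) (j : ℕ) : Nat.Coprime (2 ^ j) n :=
  Nat.Coprime.pow_left j ((Nat.coprime_two_left).2 hn)

theorem sg_prime {p : ℕ} (hp : p.Prime) : sg p = p + 1 := by
  have := ArithmeticFunction.sigma_one_apply_prime_pow (p := p) (i := 1) hp
  rw [pow_one] at this
  rw [sg, this]
  simp [Finset.sum_range_succ, add_comm]

theorem sg_one : sg 1 = 1 := by simp [sg]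

/-- `σ n ≥ n + 1` for `n ≥ 2` -/
theorem sg_ge {n : ℕ} (hn : 2 ≤ n) : n + 1 ≤ sg n := by
  rw [sg_eq]
  calc n + 1 = ∑ d ∈ ({n, 1} : Finset ℕ), d := by
        rw [Finset.sum_pair (by omega)]
    _ ≤ _ := by
        apply Finset.sum_le_sum_of_subset
        intro x hx
        simp only [Finset.mem_insert, Finset.mem_singleton] at hx
        rw [Nat.mem_divisors]
        rcases hx with rfl | rfl
        · exact ⟨dvd_rfl, by omega⟩
        · exact ⟨one_dvd _, by omega⟩

/-- `σ n ≥ n + d + 1` if `d` is a proper divisor, `d ≠ 1` -/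
theorem sg_ge' {n d : ℕ} (hn : 2 ≤ n) (hd : d ∣ n) (h1 : d ≠ 1) (h2 : d ≠ n) :
    n + d + 1 ≤ sg n := by
  rw [sg_eq]
  calc n + d + 1 = ∑ d ∈ ({n, d, 1} : Finset ℕ), d := by
        rw [Finset.sum_insert, Finset.sum_pair h1]
        · ring
        · simp only [Finset.mem_insert, Finset.mem_singleton, not_or]
          exact ⟨fun h => h2 h.symm, by omega⟩
    _ ≤ _ := by
        apply Finset.sum_le_sum_of_subset
        intro x hx
        simp only [Finset.mem_insert, Finset.mem_singleton] at hx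
        rw [Nat.mem_divisors]
        rcases hx with rfl | rfl | rfl
        · exact ⟨dvd_rfl, by omega⟩
        · exact ⟨hd, by omega⟩
        · exact ⟨one_dvd _, by omega⟩

/-- a power of two is a good multiplier of an odd `n` iff `2 ^ (j+1) n ≤ (2 ^ (j+1) - 1) σ n` -/
theorem two_pow_mem {n : ℕ} (hn : Odd n) (j : ℕ) :
    2 ^ j ∈ W n ↔ 2 ^ (j + 1) * n + sg n ≤ 2 ^ (j + 1) * sg n := by
  have h1 := sg_two_pow j
  have h0 : 1 ≤ 2 ^ j := Nat.one_le_two_pow
  have h3 : 2 ^ (j + 1) = 2 * 2 ^ j := by ring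
  have h2 : sg (2 ^ j * n) + sg n = 2 ^ (j + 1) * sg n := by
    rw [sg_coprime (two_pow_cop hn j), ← h1]; ring
  have h4 : 2 * (2 ^ j * n) = 2 ^ (j + 1) * n := by ring
  constructor
  · rintro ⟨_, _, h⟩
    omega
  · intro h
    exact ⟨h0, by omega, by omega⟩

/-- powers of two work for large exponents -/
theorem two_pow_mem_large {n : ℕ} (hn : Odd n) (h2 : 2 ≤ n) {j : ℕ} (hj : n < 2 ^ (j + 1)) :
    2 ^ j ∈ W n := by
  rw [two_pow_mem hn]
  have := sg_ge h2
  obtain ⟨s, hs⟩ : ∃ s, sg n = n + 1 + s := ⟨sg n - (n + 1), by omega⟩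
  rw [hs]
  have h3 : s ≤ 2 ^ (j + 1) * s := Nat.le_mul_of_pos_left s (by positivity)
  nlinarith

/-- key inequality: if `2 ^ j` does not work and `k` works, then `2 ^ j * (2 k - σ k) < k` -/
theorem key {n j k d : ℕ} (hn : Odd n) (hj : 2 ^ j ∉ W n) (hk : k ∈ W n)
    (hd : sg k + d = 2 * k) : 2 ^ j * d < k := by
  rw [two_pow_mem hn, not_le] at hj
  obtain ⟨h1, h2, h3⟩ := hk
  have h4 := sg_mul_le k n
  have hn0 : 0 < n := hn.pos
  by_contra hcon
  rw [not_lt] at hcon
  -- 2 k n ≤ (2k - d) s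
  have h5 : 2 * (k * n) + d * sg n ≤ 2 * k * sg n := by
    have : sg k * sg n + d * sg n = 2 * k * sg n := by rw [← hd]; ring
    omega
  -- 2 k * (2^(j+1) s) < 2k (2^(j+1) n + s)
  have h6 : 2 * k * (2 ^ (j + 1) * sg n) < 2 * k * (2 ^ (j + 1) * n + sg n) :=
    Nat.mul_lt_mul_of_pos_left hj (by omega)
  have h7 : 2 ^ (j + 1) * (2 * (k * n) + d * sg n) ≤ 2 ^ (j + 1) * (2 * k * sg n) :=
    Nat.mul_le_mul_left _ h5
  have h8 : k * sg n ≤ 2 ^ j * d * sg n := Nat.mul_le_mul_right _ hcon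
  have e1 : 2 ^ (j + 1) * (2 * (k * n) + d * sg n)
      = 2 * k * (2 ^ (j + 1) * n) + 2 * (2 ^ j * d * sg n) := by ring
  have e2 : 2 ^ (j + 1) * (2 * k * sg n) = 2 * k * (2 ^ (j + 1) * sg n) := by ring
  have e3 : 2 * k * (2 ^ (j + 1) * n + sg n) = 2 * k * (2 ^ (j + 1) * n) + 2 * (k * sg n) := by ring
  omega

theorem W_nonempty_odd {n : ℕ} (hn : Odd n) (h2 : 2 ≤ n) : (W n).Nonempty :=
  ⟨2 ^ n, two_pow_mem_large hn h2 (by
    have := Nat.lt_two_pow_self (n := n)
    rw [pow_succ]; omega)⟩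

/-- even `n`: one of 1, 3 works -/
theorem even_mem {n : ℕ} (hn : Even n) (h2 : 2 ≤ n) : 1 ∈ W n ∨ 3 ∈ W n := by
  obtain ⟨m, hm⟩ := hn
  by_cases h3 : 3 ∣ n
  · left
    obtain ⟨t, ht⟩ := h3
    have h6 : ∃ u, n = 6 * u := ⟨n / 6, by omega⟩
    obtain ⟨u, hu⟩ := h6
    have hu0 : 0 < u := by omega
    refine ⟨le_rfl, by rw [sg_one]; norm_num, ?_⟩
    rw [one_mul, sg_eq]
    calc 2 * n = ∑ d ∈ ({6 * u, 3 * u, 2 * u, u} : Finset ℕ), d := by
          rw [Finset.sum_insert, Finset.sum_insert, Finset.sum_pair (by omega)]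
          · omega
          · simp only [Finset.mem_insert, Finset.mem_singleton, not_or]; omega
          · simp only [Finset.mem_insert, Finset.mem_singleton, not_or]; omega
      _ ≤ _ := by
          apply Finset.sum_le_sum_of_subset
          intro x hx
          simp only [Finset.mem_insert, Finset.mem_singleton] at hx
          rw [Nat.mem_divisors, hu]
          refine ⟨?_, by omega⟩
          rcases hx with rfl | rfl | rfl | rfl
          · exact dvd_rfl
          · exact ⟨2, by ring⟩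
          · exact ⟨3, by ring⟩
          · exact ⟨6, by ring⟩
  · right
    have hc : Nat.Coprime 3 n := (Nat.Prime.coprime_iff_not_dvd Nat.prime_three).2 h3
    have hs3 : sg 3 = 4 := sg_prime Nat.prime_three
    refine ⟨by norm_num, by rw [hs3]; norm_num, ?_⟩
    rw [sg_coprime hc, hs3]
    have h4 : n + m + 1 ≤ sg n ∨ m = 1 := by
      by_cases hm1 : m = 1
      · exact Or.inr hm1
      · exact Or.inl (sg_ge' h2 ⟨2, by omega⟩ hm1 (by omega))
    rcases h4 with h4 | h4
    · omega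
    · have : n = 2 := by omega
      subst this
      rw [sg_prime Nat.prime_two]

theorem W_nonempty {n : ℕ} (h2 : 2 ≤ n) : (W n).Nonempty := by
  rcases Nat.even_or_odd n with he | ho
  · rcases even_mem he h2 with h | h
    · exact ⟨1, h⟩
    · exact ⟨3, h⟩
  · exact W_nonempty_odd ho h2

theorem a_mem {n : ℕ} (h2 : 2 ≤ n) : a n ∈ W n := Nat.sInf_mem (W_nonempty h2)

theorem a_le {n k : ℕ} (h : k ∈ W n) : a n ≤ k := Nat.sInf_le h

theorem a_isLeast {n : ℕ} (h2 : 2 ≤ n) : IsLeast (W n) (a n) :=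
  ⟨a_mem h2, fun _ h => a_le h⟩

/-- for odd `n` with least good power of two `2 ^ j`: `a n = 2 ^ j`, or `a n` is almost perfect,
strictly between `2 ^ (j - 1)` and `2 ^ j`, and all prime factors of `n` are larger than `2 ^ j`. -/
theorem structure_odd {n : ℕ} (hn : Odd n) (h2 : 2 ≤ n) :
    ∃ j, 2 ^ j ∈ W n ∧ (∀ i < j, 2 ^ i ∉ W n) ∧ sg (a n) + 1 = 2 * a n ∧
      (a n = 2 ^ j ∨ (2 ^ j < 2 * a n ∧ a n < 2 ^ j ∧ ∀ p, p.Prime → p ∣ n → 2 ^ j < p)) := by
  classical
  have hex : ∃ j, 2 ^ j ∈ W n := ⟨n, two_pow_mem_large hn h2 (by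
    have := Nat.lt_two_pow_self (n := n)
    rw [pow_succ]; omega)⟩
  refine ⟨Nat.find hex, Nat.find_spec hex, fun i hi => Nat.find_min hex hi, ?_⟩
  set j := Nat.find hex with hjdef
  have hle : a n ≤ 2 ^ j := a_le (Nat.find_spec hex)
  have ham := a_mem h2
  rcases Nat.eq_zero_or_pos j with hj0 | hj0
  · rw [hj0, pow_zero] at hle
    have h1 : a n = 1 := le_antisymm hle ham.1
    rw [h1, hj0, sg_one]
    exact ⟨rfl, Or.inl rfl⟩
  · obtain ⟨i, hi⟩ : ∃ i, j = i + 1 := ⟨j - 1, by omega⟩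
    have hnot : 2 ^ i ∉ W n := Nat.find_min hex (by omega)
    obtain ⟨d, hd⟩ : ∃ d, sg (a n) + d = 2 * a n := ⟨2 * a n - sg (a n), by
      have := ham.2.1; omega⟩
    have hk := key hn hnot ham hd
    have hd0 : 1 ≤ d := by have := ham.2.1; omega
    have hd1 : d = 1 := by
      by_contra hne
      have h3 : 2 ^ i * 2 ≤ 2 ^ i * d := Nat.mul_le_mul_left _ (by omega)
      rw [hi, pow_succ] at hle
      omega
    subst hd1
    refine ⟨hd, ?_⟩
    rcases eq_or_lt_of_le hle with he | hlt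
    · exact Or.inl he
    · right
      refine ⟨by rw [hi, pow_succ]; omega, hlt, ?_⟩
      intro p hp hpn
      have hpo : Odd p := Odd.of_dvd_nat hn hpn
      -- n p + n ≤ p σ n
      have h5 : n * (p + 1) ≤ p * sg n := by
        by_cases hpe : p = n
        · subst hpe
          rw [sg_prime hp]
        · obtain ⟨c, hc⟩ := hpn
          have hc0 : 0 < c := by
            rcases Nat.eq_zero_or_pos c with h | h
            · subst h; omega
            · exact h
          have hc1 : c ≠ 1 := by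
            rintro rfl; exact hpe (by rw [hc, mul_one])
          have hcn : c ≠ n := by
            intro h
            rw [← h] at hc
            have := hp.two_le
            nlinarith
          have h6 := sg_ge' h2 (d := c) ⟨p, by rw [hc]; ring⟩ hc1 hcn
          calc n * (p + 1) = p * n + n := by ring
            _ = p * n + p * c := by rw [← hc]
            _ = p * (n + c) := by ring
            _ ≤ p * sg n := Nat.mul_le_mul_left _ (by omega)
      rw [two_pow_mem hn, not_le, ← hi] at hnot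
      by_contra hcon
      rw [not_lt] at hcon
      -- p ≤ 2^j, p odd so p ≤ 2^j - 1
      have hne : p ≠ 2 ^ j := by
        intro h
        rw [h, hi, pow_succ] at hpo
        exact (Nat.not_odd_iff_even.2 ⟨2 ^ i, by ring⟩) hpo
      have h7 : p + 1 ≤ 2 ^ j := by omega
      obtain ⟨u, hu⟩ : ∃ u, 2 ^ j = p + 1 + u := ⟨2 ^ j - (p + 1), by omega⟩
      rw [hu] at hnot
      have h8 : n ≤ sg n := by have := sg_ge h2; omega
      have h9 : u * n ≤ u * sg n := Nat.mul_le_mul_left _ h8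
      nlinarith

end Pool.Agent.U796.AP
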