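import Pool.Agent.U796.AP.Base

/-!
# Every almost perfect number is a value of `a` at an odd integer
-/

namespace Pool.Agent.U796.AP

open Finset

/-- `1 / i` for primes `i > N`, else `0` -/
noncomputable def f (N i : ℕ) : ℝ := if i.Prime ∧ N < i then 1 / (i : ℝ) else 0

theorem f_nonneg (N i : ℕ) : 0 ≤ f N i := by
  unfold f; split_ifs <;> positivity

noncomputable def Q (N M : ℕ) : ℝ := ∏ i ∈ range M, (1 + f N i)

theorem Q_ge_one (N M : ℕ) : 1 ≤ Q N M := by
  unfold Q
  induction M with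
  | zero => simp
  | succ M ih =>
    rw [prod_range_succ]
    have := f_nonneg N M
    nlinarith

theorem Q_ge (N M : ℕ) : 1 + ∑ i ∈ range M, f N i ≤ Q N M := by
  induction M with
  | zero => simp [Q]
  | succ M ih =>
    have h1 := Q_ge_one N M
    have h2 : Q N (M + 1) = Q N M * (1 + f N M) := by unfold Q; rw [prod_range_succ]
    rw [h2, sum_range_succ]
    have := f_nonneg N M
    nlinarith

theorem f_not_summable (N : ℕ) : ¬ Summable (f N) := by
  intro h
  apply not_summable_one_div_on_primes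
  rw [← summable_nat_add_iff (N + 1)]
  rw [← summable_nat_add_iff (N + 1)] at h
  refine h.congr ?_
  intro i
  unfold f
  by_cases hp : (i + (N + 1)).Prime
  · rw [if_pos ⟨hp, by omega⟩, Set.indicator_of_mem (by exact hp)]
  · rw [if_neg (fun h => hp h.1), Set.indicator_of_notMem (by exact hp)]

theorem Q_unbounded (N : ℕ) (al : ℝ) : ∃ M, al ≤ Q N M := by
  by_contra hcon
  push Not at hcon
  apply f_not_summable N
  apply summable_of_sum_range_le (f_nonneg N) (c := al)
  intro M
  have := Q_ge N M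
  have := hcon M
  linarith

/-- the product of the primes in `(N, M)` -/
def nn (N M : ℕ) : ℕ := ∏ i ∈ (range M).filter (fun i => i.Prime ∧ N < i), i

theorem nn_pos (N M : ℕ) : 0 < nn N M := by
  apply Finset.prod_pos
  intro i hi
  exact (mem_filter.1 hi).2.1.pos

theorem sg_nn (N M : ℕ) : (sg (nn N M) : ℝ) = nn N M * Q N M := by
  have h1 : sg (nn N M) = ∏ i ∈ (range M).filter (fun i => i.Prime ∧ N < i), sg i :=
    ArithmeticFunction.isMultiplicative_sigma.map_prod_of_prime _
      (fun p hp => (mem_filter.1 hp).2.1)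
  have h2 : Q N M = ∏ i ∈ (range M).filter (fun i => i.Prime ∧ N < i), (1 + 1 / (i : ℝ)) := by
    unfold Q
    rw [Finset.prod_filter]
    apply Finset.prod_congr rfl
    intro i _
    unfold f
    split_ifs <;> simp
  rw [h1, h2, nn, Nat.cast_prod, Nat.cast_prod, ← Finset.prod_mul_distrib]
  apply Finset.prod_congr rfl
  intro i hi
  have hp := (mem_filter.1 hi).2.1
  rw [sg_prime hp]
  have : (i : ℝ) ≠ 0 := by exact_mod_cast hp.ne_zero
  push_cast
  field_simp

theorem nn_prime {N M p : ℕ} (hp : p.Prime) (h : p ∣ nn N M) : N < p := by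
  unfold nn at h
  obtain ⟨i, hi, hpi⟩ := (Prime.dvd_finsetProd_iff hp.prime _).1 h
  have h2 := (mem_filter.1 hi).2
  have h3 : p = i := (Nat.prime_dvd_prime_iff_eq hp h2.1).1 hpi
  rw [h3]; exact h2.2

/-- values of `σ n / n` are dense, with `n` free of small prime factors -/
theorem dense (N : ℕ) (hN : 1 ≤ N) (al : ℝ) (hal : 1 < al) :
    ∃ n : ℕ, 2 ≤ n ∧ (∀ p, p.Prime → p ∣ n → N < p) ∧ al * n ≤ sg n ∧
      (sg n : ℝ) < al * (1 + 1 / N) * n := by
  classical
  have hex := Q_unbounded N al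
  obtain ⟨M, hM⟩ : ∃ M, Nat.find hex = M + 1 := by
    refine ⟨Nat.find hex - 1, ?_⟩
    have : Nat.find hex ≠ 0 := by
      intro h0
      have h1 := Nat.find_spec hex
      rw [h0] at h1
      simp [Q] at h1
      linarith
    omega
  have h1 : al ≤ Q N (M + 1) := by rw [← hM]; exact Nat.find_spec hex
  have h2 : Q N M < al := by
    have := Nat.find_min hex (m := M) (by omega)
    exact not_le.1 this
  have h3 : Q N (M + 1) = Q N M * (1 + f N M) := by unfold Q; rw [prod_range_succ]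
  have hNr : (0 : ℝ) < N := by exact_mod_cast hN
  have h4 : f N M ≤ 1 / N := by
    unfold f
    split_ifs with h
    · have : (N : ℝ) ≤ M := by exact_mod_cast h.2.le
      exact one_div_le_one_div_of_le hNr this
    · positivity
  have h5 := f_nonneg N M
  have h6 := Q_ge_one N M
  have h7 : Q N (M + 1) < al * (1 + 1 / N) := by
    rw [h3]
    have : 0 < 1 + f N M := by linarith
    calc Q N M * (1 + f N M) < al * (1 + f N M) := by
          exact mul_lt_mul_of_pos_right h2 this
      _ ≤ al * (1 + 1 / N) := by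
          apply mul_le_mul_of_nonneg_left _ (by linarith)
          linarith
  have hs := sg_nn N (M + 1)
  have hpos : (0 : ℝ) < nn N (M + 1) := by exact_mod_cast nn_pos N (M + 1)
  refine ⟨nn N (M + 1), ?_, fun p hp h => nn_prime hp h, ?_, ?_⟩
  · by_contra hcon
    have h8 : nn N (M + 1) = 1 := by
      have := nn_pos N (M + 1)
      omega
    rw [h8, sg_one] at hs
    simp at hs
    linarith
  · rw [hs, mul_comm (nn N (M + 1) : ℝ)]
    exact mul_le_mul_of_nonneg_right h1 hpos.le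
  · rw [hs, mul_comm (nn N (M + 1) : ℝ)]
    exact mul_lt_mul_of_pos_right h7 hpos

/-- every almost perfect `k` is `a n` for an odd `n` with all prime factors larger than `L` -/
theorem exists_odd (k : ℕ) (hk1 : 1 ≤ k) (hk : sg k + 1 = 2 * k) (L : ℕ) :
    ∃ n, 2 ≤ n ∧ Odd n ∧ (∀ p, p.Prime → p ∣ n → L < p) ∧ a n = k := by
  set N := 2 * k ^ 2 + 2 + L with hNdef
  have hk0 : (1 : ℝ) ≤ k := by exact_mod_cast hk1
  have hden : (0 : ℝ) < 2 * k - 1 := by linarith
  obtain ⟨n, hn2, hnp, hlo, hhi⟩ := dense N (by omega) (2 * k / (2 * k - 1))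
    (by rw [lt_div_iff₀ hden]; linarith)
  have hodd : Odd n := by
    by_contra h
    rw [Nat.not_odd_iff_even] at h
    have := hnp 2 Nat.prime_two h.two_dvd
    omega
  have hcop : Nat.Coprime k n := by
    rw [Nat.coprime_iff_gcd_eq_one]
    by_contra hne
    obtain ⟨p, hp, hpd⟩ := Nat.exists_prime_and_dvd hne
    have h1 := hnp p hp (hpd.trans (Nat.gcd_dvd_right _ _))
    have h2 := Nat.le_of_dvd (by omega) (hpd.trans (Nat.gcd_dvd_left _ _))
    nlinarith
  have hkr : (sg k : ℝ) = 2 * k - 1 := by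
    have : ((sg k + 1 : ℕ) : ℝ) = ((2 * k : ℕ) : ℝ) := by rw [hk]
    push_cast at this
    linarith
  have hmem : k ∈ W n := by
    refine ⟨hk1, by omega, ?_⟩
    rw [sg_coprime hcop]
    rw [div_mul_eq_mul_div, div_le_iff₀ hden] at hlo
    have : ((2 * (k * n) : ℕ) : ℝ) ≤ ((sg k * sg n : ℕ) : ℝ) := by
      push_cast
      rw [hkr]
      linarith
    exact_mod_cast this
  refine ⟨n, hn2, hodd, fun p hp h => by have := hnp p hp h; omega, ?_⟩
  apply le_antisymm (a_le hmem)
  by_contra hcon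
  rw [not_le] at hcon
  obtain ⟨b1, b2, b3⟩ := a_mem hn2
  set q := a n with hq
  have hsub := sg_mul_le q n
  -- real numbers
  have hk2 : (2 : ℝ) ≤ k := by exact_mod_cast (by omega : 2 ≤ k)
  have hqk : (q : ℝ) + 1 ≤ k := by exact_mod_cast (by omega : q + 1 ≤ k)
  have hq1 : (1 : ℝ) ≤ q := by exact_mod_cast b1
  have hqs : (sg q : ℝ) ≤ 2 * q - 1 := by
    have : ((sg q + 1 : ℕ) : ℝ) ≤ ((2 * q : ℕ) : ℝ) := by exact_mod_cast (by omega)
    push_cast at this
    linarith
  have h1 : 2 * ((q : ℝ) * n) ≤ (2 * q - 1) * sg n := by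
    have h2 : ((2 * (q * n) : ℕ) : ℝ) ≤ ((sg q * sg n : ℕ) : ℝ) := by exact_mod_cast b3.trans hsub
    push_cast at h2
    have h3 : (sg q : ℝ) * sg n ≤ (2 * q - 1) * sg n :=
      mul_le_mul_of_nonneg_right hqs (by positivity)
    linarith
  have hn0 : (0 : ℝ) < n := by exact_mod_cast (by omega : 0 < n)
  have hNr : (2 : ℝ) * k ^ 2 ≤ N := by
    have : 2 * k ^ 2 ≤ N := by omega
    exact_mod_cast this
  have hN0 : (0 : ℝ) < N := by nlinarith
  -- σ n (2k-3) < (2k-2) n
  have h4 : (sg n : ℝ) * (2 * k - 3) < (2 * k - 2) * n := by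
    have h5 : 2 * (k : ℝ) / (2 * k - 1) * (1 + 1 / N) * (2 * k - 3) ≤ 2 * k - 2 := by
      have e : 2 * (k : ℝ) / (2 * k - 1) * (1 + 1 / N) * (2 * k - 3)
          = 2 * k * (N + 1) * (2 * k - 3) / ((2 * k - 1) * N) := by
        field_simp
      rw [e, div_le_iff₀ (by positivity)]
      nlinarith
    have h6 : (0 : ℝ) < 2 * k - 3 := by linarith
    calc (sg n : ℝ) * (2 * k - 3)
        < (2 * (k : ℝ) / (2 * k - 1) * (1 + 1 / N) * n) * (2 * k - 3) :=
          mul_lt_mul_of_pos_right hhi h6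
      _ = (2 * (k : ℝ) / (2 * k - 1) * (1 + 1 / N) * (2 * k - 3)) * n := by ring
      _ ≤ (2 * k - 2) * n := mul_le_mul_of_nonneg_right h5 hn0.le
  -- contradiction
  have h7 : (2 * (q : ℝ) - 1) * (sg n * (2 * k - 3)) ≤ (2 * q - 1) * ((2 * k - 2) * n) :=
    mul_le_mul_of_nonneg_left h4.le (by linarith)
  have h7' : (2 * (q : ℝ) - 1) * (sg n * (2 * k - 3)) < (2 * q - 1) * ((2 * k - 2) * n) :=
    mul_lt_mul_of_pos_left h4 (by linarith)
  have h8 : 2 * ((q : ℝ) * n) * (2 * k - 3) ≤ (2 * q - 1) * sg n * (2 * k - 3) :=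
    mul_le_mul_of_nonneg_right h1 (by linarith)
  have h9 : (2 * (q : ℝ) * (2 * k - 3)) * n < ((2 * q - 1) * (2 * k - 2)) * n := by nlinarith
  have h10 : 2 * (q : ℝ) * (2 * k - 3) < (2 * q - 1) * (2 * k - 2) := lt_of_mul_lt_mul_right h9 hn0.le
  nlinarith

end Pool.Agent.U796.AP
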