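import Pool.Agent.U796.AP.Range

/-!
# Almost perfect numbers: shape, small cases; even integers; the first occurrence of a power of two
-/

namespace Pool.Agent.U796.AP

open Finset

theorem square_of_odd_sg {m : ℕ} (hm : Odd m) (h : Odd (sg m)) : ∃ b, Odd b ∧ m = b ^ 2 := by
  by_contra hcon
  have hns : ∀ d, d * d ≠ m := by
    intro d hd
    apply hcon
    refine ⟨d, ?_, by rw [← hd]; ring⟩
    rw [← hd] at hm
    exact (Nat.odd_mul.1 hm).1
  have hm0 : 0 < m := hm.pos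
  have h1 : ((sg m : ℕ) : ZMod 2) = 0 := by
    rw [sg_eq, Nat.cast_sum]
    apply Finset.sum_involution (fun d _ => m / d)
    · intro d hd
      have hdm := Nat.dvd_of_mem_divisors hd
      have h2 : Odd d := Odd.of_dvd_nat hm hdm
      have h3 : Odd (m / d) := Odd.of_dvd_nat hm (Nat.div_dvd_of_dvd hdm)
      have h4 : Even (d + m / d) := h2.add_odd h3
      have h5 : ((d + m / d : ℕ) : ZMod 2) = 0 := (ZMod.natCast_eq_zero_iff_even).2 h4
      rw [Nat.cast_add] at h5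
      exact h5
    · intro d hd _ heq
      have hdm := Nat.dvd_of_mem_divisors hd
      apply hns d
      have := Nat.mul_div_cancel' hdm
      rw [heq] at this
      exact this
    · intro d hd
      have hdm := Nat.dvd_of_mem_divisors hd
      exact Nat.mem_divisors.2 ⟨Nat.div_dvd_of_dvd hdm, hm0.ne'⟩
    · intro d hd
      have hdm := Nat.dvd_of_mem_divisors hd
      exact Nat.div_div_self hdm hm0.ne'
  have h2 : Even (sg m) := (ZMod.natCast_eq_zero_iff_even).1 h1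
  exact (Nat.not_even_iff_odd.2 h) h2

/-- an almost perfect number is `2 ^ r * b ^ 2`, `b` odd, `(2 ^ (r+1) - 1) (σ (b²) - b²) = b² - 1` -/
theorem shape {k : ℕ} (hk1 : 1 ≤ k) (hk : sg k + 1 = 2 * k) :
    ∃ r b, Odd b ∧ k = 2 ^ r * b ^ 2 ∧
      2 ^ (r + 1) * sg (b ^ 2) + 1 = 2 ^ (r + 1) * b ^ 2 + sg (b ^ 2) := by
  obtain ⟨r, m, hm, hkm⟩ := Nat.exists_eq_two_pow_mul_odd (n := k) (by omega)
  have h1 : sg k = sg (2 ^ r) * sg m := by rw [hkm, sg_coprime (two_pow_cop hm r)]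
  have h2 : Odd (sg k) := ⟨k - 1, by omega⟩
  rw [h1] at h2
  obtain ⟨b, hb, hmb⟩ := square_of_odd_sg hm (Nat.odd_mul.1 h2).2
  refine ⟨r, b, hb, by rw [hkm, hmb], ?_⟩
  rw [← hmb]
  have h3 := sg_two_pow r
  have h4 : sg (2 ^ r) * sg m + sg m = 2 ^ (r + 1) * sg m := by rw [← h3]; ring
  have h5 : 2 ^ (r + 1) * m = 2 * k := by rw [hkm]; ring
  omega

/-- the check for small `b` -/
def chk (b : ℕ) : Bool :=
  (b ^ 2 - 1) % (2 * ((∑ d ∈ (b ^ 2).divisors, d) - b ^ 2)) !=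
    (∑ d ∈ (b ^ 2).divisors, d) - b ^ 2

theorem chk_all : ∀ i < 49, chk (2 * i + 3) = true := by decide +kernel

theorem small {k : ℕ} (hk1 : 1 ≤ k) (hk : sg k + 1 = 2 * k) (hlt : k < 10000) :
    ∃ j, k = 2 ^ j := by
  obtain ⟨r, b, hb, hkb, he⟩ := shape hk1 hk
  obtain ⟨c, hc⟩ := hb
  rcases Nat.eq_zero_or_pos c with h0 | h0
  · subst h0
    exact ⟨r, by rw [hkb, hc]; simp⟩
  exfalso
  have hb2 : b ^ 2 ≤ k := by
    rw [hkb]; exact Nat.le_mul_of_pos_left _ (by positivity)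
  have hb100 : b < 100 := by nlinarith
  have h3 := chk_all (c - 1) (by omega)
  have h4 : 2 * (c - 1) + 3 = b := by omega
  rw [h4] at h3
  unfold chk at h3
  rw [bne_iff_ne, ← sg_eq] at h3
  apply h3
  have hb3 : 3 ≤ b := by omega
  have h5 : b ^ 2 + 1 ≤ sg (b ^ 2) := sg_ge (by nlinarith)
  obtain ⟨t, ht⟩ : ∃ t, sg (b ^ 2) = b ^ 2 + t := ⟨sg (b ^ 2) - b ^ 2, by omega⟩
  have ht1 : 1 ≤ t := by omega
  rw [ht] at he ⊢
  rw [Nat.add_sub_cancel_left]
  have h6 : 2 ^ (r + 1) * t + 1 = b ^ 2 + t := by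
    have : 2 ^ (r + 1) * (b ^ 2 + t) = 2 ^ (r + 1) * b ^ 2 + 2 ^ (r + 1) * t := by ring
    omega
  obtain ⟨u, hu⟩ : ∃ u, 2 ^ r = u + 1 := ⟨2 ^ r - 1, by
    have := Nat.one_le_two_pow (n := r); omega⟩
  have h7 : b ^ 2 - 1 = 2 * t * u + t := by
    have h8 : 2 ^ (r + 1) * t = 2 * t * u + 2 * t := by rw [pow_succ, hu]; ring
    omega
  rw [h7, Nat.mul_add_mod, Nat.mod_eq_of_lt (by omega)]

end Pool.Agent.U796.AP
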